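import Pool.Agent.N536.HH.Stm

/-!
# Classes on products: powers of the product divisor and traces (project HH, helper286)
-/

open CategoryTheory AlgebraicGeometry Finset

universe u v

namespace Pool.Agent.N286.HH

open Pool.Agent.H914 Pool.Agent.H914.VarClass Pool.Agent.H914.VarClass.Obj
  Pool.Agent.H914.WeilCohomology Pool.Agent.H281R3.HT Pool.Agent.W539.Ker

variable {k : Type u} [Field k] {𝒱 : VarClass k} {ops : CycleOps 𝒱}
  {W : WeilCohomology.{u, v} ops} {X Y : 𝒱.Obj}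

lemma pow_gr {a : W.H X} (ha : a ∈ W.gr X 2) (n : ℕ) : a ^ n ∈ W.gr X (2 * n) := by
  induction n with
  | zero => simpa using W.one_mem X
  | succ n ih =>
    rw [pow_succ]
    exact W.mul_mem ih ha

lemma ext_mul (x x' : W.H X) {y : W.H Y} (y' : W.H Y) {i : ℕ} (hy : y ∈ W.gr Y (2 * i)) :
    (W.map (fst X Y) x * W.map (snd X Y) y) * (W.map (fst X Y) x' * W.map (snd X Y) y') =
      W.map (fst X Y) (x * x') * W.map (snd X Y) (y * y') := by
  have h1 : W.map (snd X Y) y * W.map (fst X Y) x' = W.map (fst X Y) x' * W.map (snd X Y) y :=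
    W.even_comm (W.map_mem (snd X Y) hy) _
  rw [map_mul, map_mul, mul_assoc, ← mul_assoc (W.map (snd X Y) y), h1]
  simp only [mul_assoc]

lemma tr_ext_mul (x x' : W.H X) {y : W.H Y} (y' : W.H Y) {i : ℕ} (hy : y ∈ W.gr Y (2 * i)) :
    W.tr (X.prod Y) ((W.map (fst X Y) x * W.map (snd X Y) y) *
      (W.map (fst X Y) x' * W.map (snd X Y) y')) = W.tr X (x * x') * W.tr Y (y * y') := by
  rw [ext_mul x x' y' hy, W.tr_prod]

lemma pow_L {a : W.H X} (b : W.H Y) (hb : b ∈ W.gr Y 2) (x : W.H X) (y : W.H Y)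
    (N : ℕ) : (W.map (fst X Y) a + W.map (snd X Y) b) ^ N *
      (W.map (fst X Y) x * W.map (snd X Y) y) =
      ∑ k ∈ range (N + 1), N.choose k •
        (W.map (fst X Y) (a ^ k * x) * W.map (snd X Y) (b ^ (N - k) * y)) := by
  have hc : Commute (W.map (fst X Y) a) (W.map (snd X Y) b) :=
    (W.even_comm (p := 1) (W.map_mem (snd X Y) hb) _).symm
  rw [hc.add_pow, Finset.sum_mul]
  refine Finset.sum_congr rfl fun k _ => ?_
  rw [← map_pow, ← map_pow, nsmul_eq_mul, ← ext_mul (a ^ k) x y (pow_gr hb (N - k)),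
    ← (Nat.cast_commute (N.choose k) _).eq, mul_assoc]

lemma pow_van {A : Type*} [Ring A] {a x : A} {n k : ℕ} (h : a ^ n * x = 0) (hk : n ≤ k) :
    a ^ k * x = 0 := by
  obtain ⟨m, rfl⟩ := Nat.exists_eq_add_of_le hk
  rw [add_comm, pow_add, mul_assoc, h, mul_zero]

lemma mulLeft_pow {A : Type*} [Ring A] {K : Type*} [Field K] [Algebra K A] (a x : A) (n : ℕ) :
    (LinearMap.mulLeft K a ^ n) x = a ^ n * x := by
  rw [LinearMap.pow_mulLeft, LinearMap.mulLeft_apply]

/-- the divisor on the product -/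
noncomputable def dD (ops : CycleOps 𝒱) {X Y : 𝒱.Obj} (D : X.Cycles) (D' : Y.Cycles) :
    (X.prod Y).Cycles :=
  ops.pull (fst X Y) D + ops.pull (snd X Y) D'

lemma cl_dD (W : WeilCohomology.{u, v} ops) (D : X.Cycles) (D' : Y.Cycles) :
    W.cl (X.prod Y) (dD ops D D') =
      W.map (fst X Y) (W.cl X D) + W.map (snd X Y) (W.cl Y D') := by
  unfold dD
  rw [map_add, W.cl_pull, W.cl_pull]

lemma isCyc_dD {D : X.Cycles} {D' : Y.Cycles} (hP : X.IsCyc 1 D) (hQ : Y.IsCyc 1 D') :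
    (X.prod Y).IsCyc 1 (dD ops D D') :=
  (ops.pull_mem (fst X Y) hP).add (ops.pull_mem (snd X Y) hQ)

/-- a family of one element -/
lemma hasFamily_of {D : X.Cycles} {n : ℕ} {s : ℚ} (z : X.Cycles) (hz : Primitive W X D n z)
    (hs : 0 < s * pairing ops X D n z z) : HasFamily W X D n s 1 := by
  refine ⟨fun _ => z, fun _ => hz, fun _ => hs, ?_⟩
  intro i j hij
  exact absurd (Subsingleton.elim i j) hij

lemma of_hasFamily {D : X.Cycles} {n : ℕ} {s : ℚ} (h : HasFamily W X D n s 1) :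
    ∃ z : X.Cycles, Primitive W X D n z ∧ 0 < s * pairing ops X D n z z := by
  obtain ⟨z, h1, h2, -⟩ := h
  exact ⟨z 0, h1 0, h2 0⟩

lemma prim_pow {D : X.Cycles} {n : ℕ} {z : X.Cycles} (hz : Primitive W X D n z) :
    W.cl X D ^ (X.dim - 2 * n + 1) * W.cl X z = 0 := by
  have h := hz.2
  rwa [cl_divPow, mulLeft_pow] at h

lemma pairing_cast' {D : X.Cycles} (hD : X.IsCyc 1 D) {n : ℕ} (hn : 2 * n ≤ X.dim)
    {z w : X.Cycles} (hz : X.IsCyc n z) (hw : X.IsCyc n w) :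
    ((pairing ops X D n z w : ℚ) : W.K) = (-1 : W.K) ^ n *
      W.tr X (W.cl X z * (W.cl X D ^ (X.dim - 2 * n) * W.cl X w)) := by
  rw [pairing_cast hD hn hz hw, mulLeft_pow]

end Pool.Agent.N286.HH
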